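import Pool.Agent.PFB.StmtsG

/-!
# PFB squad, row EIG: only two eigenrays
-/

set_option autoImplicit false

open Matrix Filter Topology

namespace Pool.Agent.PFB.H15

open Pool.Agent.PFS

/-- pushing an inequality by powers of a scaled group element -/
theorem lim_neg {n : ℕ} {C : Set (V n)} {Γ : Subgroup (GL (Fin n) ℝ)} (h : CC C Γ)
    {τ : GL (Fin n) ℝ} (hτ : τ ∈ Γ) {s r1 r2 M : ℝ} (hs : 0 < s) {v e f : V n}
    (hv : s • act τ v = v) (he : s • act τ e = r1 • e) (hf : s • act τ f = r2 • f)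
    (h1 : 0 ≤ r1) (h1' : r1 < 1) (h2 : 0 ≤ r2) (h2' : r2 < 1)
    (h0 : M • (e + f) - v ∈ closure C) : -v ∈ closure C := by
  have hk : ∀ k : ℕ, M • (r1 ^ k • e + r2 ^ k • f) - v ∈ closure C := by
    intro k
    induction k with
    | zero => simpa using h0
    | succ k ih =>
      have h3 := (h.sact_cl_iff hτ hs).mpr ih
      have h4 : s • act τ (M • (r1 ^ k • e + r2 ^ k • f) - v)
          = M • (r1 ^ (k + 1) • e + r2 ^ (k + 1) • f) - v := by
        rw [CC.act_sub, CC.act_smul, CC.act_add, CC.act_smul, CC.act_smul, smul_sub, hv]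
        congr 1
        have e1 : s • M • (r1 ^ k • act τ e + r2 ^ k • act τ f)
            = M • (r1 ^ k • (s • act τ e) + r2 ^ k • (s • act τ f)) := by
          simp only [smul_add, smul_smul]
          congr 1
          · congr 1; ring
          · congr 1; ring
        rw [e1, he, hf, smul_smul, smul_smul, pow_succ, pow_succ]
      rwa [h4] at h3
  have t1 : Tendsto (fun k : ℕ => M • (r1 ^ k • e + r2 ^ k • f) - v) atTop
      (𝓝 (M • ((0 : ℝ) • e + (0 : ℝ) • f) - v)) := by
    have a1 : Tendsto (fun k : ℕ => r1 ^ k • e) atTop (𝓝 ((0 : ℝ) • e)) :=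
      (tendsto_pow_atTop_nhds_zero_of_lt_one h1 h1').smul_const e
    have a2 : Tendsto (fun k : ℕ => r2 ^ k • f) atTop (𝓝 ((0 : ℝ) • f)) :=
      (tendsto_pow_atTop_nhds_zero_of_lt_one h2 h2').smul_const f
    exact ((a1.add a2).const_smul M).sub_const v
  have h5 : M • ((0 : ℝ) • e + (0 : ℝ) • f) - v = -v := by simp
  rw [h5] at t1
  exact isClosed_closure.mem_of_tendsto t1 (Eventually.of_forall hk)

/-- points of the limit cone -/
theorem lamC_facts {n : ℕ} {C : Set (V n)} {Γ : Subgroup (GL (Fin n) ℝ)} (h : CC C Γ) {x : V n}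
    (hx : x ∈ LamC C Γ) : x ∈ closure C ∧ x ≠ 0 := by
  obtain ⟨t, ht, u, hu, rfl⟩ := hx
  refine ⟨h.cl_smul hu.2.1 ht.le, ?_⟩
  intro h0
  rcases smul_eq_zero.mp h0 with h1 | h1
  · exact ht.ne' h1
  · have := hu.1
    rw [h1, norm_zero] at this
    exact zero_ne_one this

/-- a vector dependent on a nonzero vector, both in the closed cone, is a positive multiple -/
theorem dep_pos {n : ℕ} {C : Set (V n)} (h : PCone C) {e w : V n} (he : e ∈ closure C)
    (hw : w ∈ closure C) (he0 : e ≠ 0) (hw0 : w ≠ 0) (hd : ¬ LinearIndependent ℝ ![e, w]) :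
    ∃ c : ℝ, 0 < c ∧ e = c • w := by
  rw [LinearIndependent.pair_iff] at hd
  push Not at hd
  obtain ⟨s, t, hst, hne⟩ := hd
  have hs : s ≠ 0 := by
    intro hs
    have ht := hne hs
    rw [hs, zero_smul, zero_add] at hst
    rcases smul_eq_zero.mp hst with h1 | h1
    · exact ht h1
    · exact hw0 h1
  have hE : e = (-(t / s)) • w := by
    have h1 : s • e = -(t • w) := eq_neg_of_add_eq_zero_left hst
    have h2 : s⁻¹ • (s • e) = s⁻¹ • (-(t • w)) := by rw [h1]
    rw [smul_smul, inv_mul_cancel₀ hs, one_smul] at h2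
    rw [h2, smul_neg, smul_smul, neg_smul]
    congr 2
    rw [div_eq_inv_mul]
  refine ⟨-(t / s), ?_, hE⟩
  by_contra hc
  push Not at hc
  have h1 : -e ∈ closure C := by
    have h2 : -e = (-(-(t / s))) • w := by rw [neg_smul, ← hE]
    rw [h2]
    exact h.cl_smul hw (by linarith)
  exact he0 (h.salient e he h1)

theorem eig (fce : FceStmt) : EigStmt := by
  intro n C Γ h K d T hT w hw σ hσ lam mu hlam hlm h0 h1 e he hene κ hκ
  have hP : PCone C := h.toPCone
  have hpes := hT.pes w hw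
  obtain ⟨hw0c, hw0n⟩ := lamC_facts h (hpes.2 0)
  obtain ⟨hw1c, hw1n⟩ := lamC_facts h (hpes.2 1)
  have hmu : 0 < mu := hlam.trans hlm
  have hxc : w 0 + w 1 ∈ closure C := hP.cl_add hw0c hw1c
  have hx0 : w 0 + w 1 ≠ 0 := by
    intro hz
    have h2 : w 1 = - w 0 := by
      rw [add_comm] at hz
      exact eq_neg_of_add_eq_zero_left hz
    exact hw0n (hP.salient _ hw0c (by rw [← h2]; exact hw1c))
  obtain ⟨f1, f2, f3, f4, f5, f6⟩ := fce n C hP (w 0 + w 1) hxc hx0
  have hec : e ∈ closure C := ((f5 e).mp he).1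
  have hw0F : w 0 ∈ closure (EF C w) := by
    refine f6 (w 0 + w 1) (subset_closure f1) (w 0) hw0c 1 ?_
    rw [one_smul, add_sub_cancel_left]
    exact hw1c
  have hw1F : w 1 ∈ closure (EF C w) := by
    refine f6 (w 0 + w 1) (subset_closure f1) (w 1) hw1c 1 ?_
    rw [one_smul, add_sub_cancel_right]
    exact hw0c
  -- the eigenvalue is positive
  have hκ0 : κ ≠ 0 := by
    intro hz
    rw [hz, zero_smul, ← CC.act_zero σ] at hκ
    exact hene (CC.act_injective σ hκ)
  have hκp : 0 < κ := by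
    by_contra hc
    push Not at hc
    have h2 : κ • e ∈ closure C := by rw [← hκ]; exact h.act_cl hσ hec
    have h3 : -(κ • e) ∈ closure C := by
      rw [← neg_smul]
      exact hP.cl_smul hec (by linarith)
    rcases smul_eq_zero.mp (hP.salient _ h2 h3) with h4 | h4
    · exact hκ0 h4
    · exact hene h4
  by_cases hd0 : LinearIndependent ℝ ![e, w 0]
  swap
  · exact Or.inl (dep_pos hP hec hw0c hene hw0n hd0)
  by_cases hd1 : LinearIndependent ℝ ![e, w 1]
  swap
  · exact Or.inr (dep_pos hP hec hw1c hene hw1n hd1)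
  exfalso
  -- inverse action on eigenvectors
  have inv_eig : ∀ (v : V n) (r : ℝ), r ≠ 0 → act σ v = r • v → act σ⁻¹ v = r⁻¹ • v := by
    intro v r hr hv
    have h2 : act σ⁻¹ (act σ v) = act σ⁻¹ (r • v) := by rw [hv]
    rw [CC.act_inv_act, CC.act_smul] at h2
    rw [h2, smul_smul, inv_mul_cancel₀ hr, one_smul, ← h2]
  -- order bounds
  have bnd : ∀ y ∈ EF C w, ∃ M : ℝ, M • y - (w 0 + w 1) ∈ closure C := by
    intro y hy
    obtain ⟨ε, hε, _, h3⟩ := hy
    refine ⟨ε⁻¹, ?_⟩
    have h4 := hP.cl_smul h3 (inv_pos.mpr hε).le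
    rwa [smul_sub, smul_smul, inv_mul_cancel₀ hε.ne', one_smul] at h4
  -- (a)
  obtain ⟨M1, hM1⟩ := bnd _ (hT.strict w hw e he (w 1) hw1F hd1)
  have hA : M1 • (e + w 1) - w 0 ∈ closure C := by
    have := hP.cl_add hM1 hw1c
    have h4 : M1 • (e + w 1) - (w 0 + w 1) + w 1 = M1 • (e + w 1) - w 0 := by abel
    rwa [h4] at this
  obtain ⟨M2, hM2⟩ := bnd _ (hT.strict w hw e he (w 0) hw0F hd0)
  have hB : M2 • (e + w 0) - w 1 ∈ closure C := by
    have := hP.cl_add hM2 hw0c
    have h4 : M2 • (e + w 0) - (w 0 + w 1) + w 0 = M2 • (e + w 0) - w 1 := by abel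
    rwa [h4] at this
  have hκl : κ ≤ lam := by
    by_contra hc
    push Not at hc
    have h5 : -(w 0) ∈ closure C := by
      refine lim_neg h (Γ.inv_mem hσ) (s := lam) (r1 := lam / κ) (r2 := lam / mu) (M := M1) hlam
        (e := e) (f := w 1) ?_ ?_ ?_ (by positivity) ?_ (by positivity) ?_ hA
      · rw [inv_eig _ _ hlam.ne' h0, smul_smul, mul_inv_cancel₀ hlam.ne', one_smul]
      · rw [inv_eig _ _ hκp.ne' hκ, smul_smul, div_eq_mul_inv]
      · rw [inv_eig _ _ hmu.ne' h1, smul_smul, div_eq_mul_inv]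
      · rwa [div_lt_one hκp]
      · rwa [div_lt_one hmu]
    exact hw0n (hP.salient _ hw0c h5)
  have h6 : -(w 1) ∈ closure C := by
    refine lim_neg h hσ (s := mu⁻¹) (r1 := κ / mu) (r2 := lam / mu) (M := M2) (inv_pos.mpr hmu)
      (e := e) (f := w 0) ?_ ?_ ?_ (by positivity) ?_ (by positivity) ?_ hB
    · rw [h1, smul_smul, inv_mul_cancel₀ hmu.ne', one_smul]
    · rw [hκ, smul_smul, div_eq_inv_mul]
    · rw [h0, smul_smul, div_eq_inv_mul]
    · rw [div_lt_one hmu]; linarith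
    · rwa [div_lt_one hmu]
  exact hw1n (hP.salient _ hw1c h6)

end Pool.Agent.PFB.H15
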